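import Mathlib

set_option autoImplicit false

namespace Pool.Agent.Results.MP_f5651a_an.Q2True

open Polynomial Finset Filter Topology

variable {E : Type*} [NormedAddCommGroup E] [NormedSpace ℝ E]

lemma inj (m : ℕ) : Set.InjOn (fun j : ℕ => (j : ℝ)) (range (m + 1)) :=
  fun _ _ _ _ h => Nat.cast_injective h

lemma interp (m : ℕ) (p : ℝ[X]) (hp : p.natDegree ≤ m) :
    p = ∑ j ∈ range (m + 1), C (p.eval (j : ℝ)) * Lagrange.basis (range (m + 1)) (fun j : ℕ => (j : ℝ)) j := by
  rw [← Lagrange.interpolate_apply]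
  refine Lagrange.eq_interpolate (inj m) ?_
  rw [card_range]
  exact degree_le_natDegree.trans_lt (by exact_mod_cast Nat.lt_succ_of_le hp)

lemma lim (m : ℕ) (p : ℝ[X]) (hp : p.natDegree ≤ m) :
    Tendsto (fun s : ℕ => p.eval (s : ℝ) / (s : ℝ) ^ m) atTop (𝓝 (p.coeff m)) := by
  have h1 : Tendsto (fun s : ℕ => ∑ i ∈ range (m + 1), p.coeff i * ((s : ℝ)⁻¹) ^ (m - i)) atTop
      (𝓝 (∑ i ∈ range (m + 1), p.coeff i * (0 : ℝ) ^ (m - i))) :=
    tendsto_finsetSum _ (fun i _ => (tendsto_inv_atTop_nhds_zero_nat.pow _).const_mul _)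
  rw [sum_range_succ, sum_eq_zero (fun i hi => by
    rw [zero_pow (by have := mem_range.1 hi; omega), mul_zero]), Nat.sub_self, pow_zero, mul_one,
    zero_add] at h1
  refine h1.congr' ?_
  filter_upwards [eventually_gt_atTop 0] with s hs
  have hs' : (s : ℝ) ≠ 0 := by positivity
  rw [eval_eq_sum_range' (Nat.lt_succ_of_le hp), sum_div]
  refine sum_congr rfl (fun i hi => ?_)
  obtain ⟨d, rfl⟩ := Nat.exists_eq_add_of_le (Nat.lt_succ_iff.1 (mem_range.1 hi))
  rw [Nat.add_sub_cancel_left, pow_add, inv_pow]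
  field_simp

section
variable (m : ℕ) (F : E → ℝ)
  (hF : ∀ x h : E, ∃ p : ℝ[X], p.natDegree ≤ m ∧ ∀ t : ℚ, F (x + (t : ℝ) • h) = p.eval (t : ℝ))
  (l : ℕ → ℝ[X]) (hl : ∀ j, l j = Lagrange.basis (range (m + 1)) (fun j : ℕ => (j : ℝ)) j)
include hF hl

lemma L1 (x h : E) (t : ℚ) : F (x + (t : ℝ) • h)
    = ∑ j ∈ range (m + 1), F (x + (j : ℝ) • h) * (l j).eval (t : ℝ) := by
  obtain ⟨p, hp, e⟩ := hF x h
  rw [e, interp m p hp, eval_finsetSum]
  refine sum_congr rfl (fun j _ => ?_)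
  have := e (j : ℚ)
  rw [Rat.cast_natCast] at this
  rw [this, eval_mul, eval_C, hl]

omit hF in
lemma L2 (x h : E) (p : ℝ[X]) (hp : p.natDegree ≤ m)
    (e : ∀ t : ℚ, F (x + (t : ℝ) • h) = p.eval (t : ℝ)) :
    p.coeff m = ∑ j ∈ range (m + 1), F (x + (j : ℝ) • h) * (l j).coeff m := by
  rw [interp m p hp, finsetSum_coeff]
  refine sum_congr rfl (fun j _ => ?_)
  have := e (j : ℚ)
  rw [Rat.cast_natCast] at this
  rw [this, coeff_C_mul, hl]

lemma L3 (x h : E) (q : ℕ) :
    ∑ j ∈ range (m + 1), F (x + (j : ℝ) • (q : ℝ) • h) * (l j).coeff m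
      = (q : ℝ) ^ m * ∑ j ∈ range (m + 1), F (x + (j : ℝ) • h) * (l j).coeff m := by
  obtain ⟨p, hp, e⟩ := hF x h
  rw [← L2 m F l hl x h p hp e, ← L2 m F l hl x ((q : ℝ) • h) (p.comp (C (q : ℝ) * X)),
    comp_C_mul_X_coeff, mul_comm]
  · refine natDegree_comp_le.trans ?_
    have : (C (q : ℝ) * X).natDegree ≤ 1 := by compute_degree
    nlinarith
  · intro t
    have := e (q * t)
    push_cast at this
    rw [smul_smul, mul_comm, this]
    simp

omit hF in
lemma L0 : ∀ j ∈ range (m + 1), (l j).eval 0 = if j = 0 then 1 else 0 := by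
  intro j hj
  rw [hl]
  split_ifs with h
  · subst h
    simpa using Lagrange.eval_basis_self (inj m) hj
  · simpa using Lagrange.eval_basis_of_ne (v := fun j : ℕ => (j : ℝ)) h
      (mem_range.2 (Nat.succ_pos m))

lemma L4 (x h : E) : ∑ j ∈ range (m + 1), F (x + (j : ℝ) • h) * (l j).coeff m
    = ∑ j ∈ range (m + 1), F (0 + (j : ℝ) • h) * (l j).coeff m := by
  have key : ∀ x h : E, Tendsto (fun s : ℕ => F (x + (s : ℝ) • h) / (s : ℝ) ^ m) atTop
      (𝓝 (∑ j ∈ range (m + 1), F (x + (j : ℝ) • h) * (l j).coeff m)) := by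
    intro x h
    obtain ⟨p, hp, e⟩ := hF x h
    rw [← L2 m F l hl x h p hp e]
    refine (lim m p hp).congr (fun s => ?_)
    have := e (s : ℚ)
    rw [Rat.cast_natCast] at this
    rw [this]
  refine tendsto_nhds_unique (key x h) ?_
  have h1 := tendsto_finsetSum (range (m + 1)) (fun i _ => (key 0 (h + (i : ℝ) • x)).mul
    (((l i).continuous.tendsto 0).comp tendsto_inv_atTop_nhds_zero_nat))
  rw [sum_congr rfl (fun i hi => by rw [L0 m l hl i hi]), sum_range_succ'] at h1
  simp only [Nat.add_eq_zero_iff, one_ne_zero, and_false, if_false, mul_zero, sum_const_zero,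
    if_true, Nat.cast_zero, zero_smul, add_zero, mul_one, zero_add] at h1
  simp only [zero_add]
  refine h1.congr' ?_
  filter_upwards [eventually_gt_atTop 0] with s hs
  have hs' : (s : ℝ) ≠ 0 := by positivity
  have := L1 m F hF l hl ((s : ℝ) • h) ((s : ℝ) • x) ((s : ℚ)⁻¹)
  push_cast at this
  rw [smul_smul, inv_mul_cancel₀ hs', one_smul, add_comm] at this
  rw [this, sum_div]
  refine sum_congr rfl (fun i _ => ?_)
  rw [smul_add, smul_comm (s : ℝ) (i : ℝ) x, Function.comp_apply]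
  ring

lemma L6 (x : E) (r M : ℝ) (hr : 0 < r) (hM : ∀ y, ‖y‖ < r → |F (x + y)| ≤ M) :
    ContinuousAt F x := by
  rw [Metric.continuousAt_iff]
  intro ε hε
  have h1 : Tendsto (fun N : ℕ => ∑ j ∈ range (m + 1), M * |(l j).eval (N : ℝ)⁻¹ - (l j).eval 0|)
      atTop (𝓝 (∑ j ∈ range (m + 1), M * |(l j).eval 0 - (l j).eval 0|)) :=
    tendsto_finsetSum _ (fun j _ => (((((l j).continuous.tendsto 0).comp
      tendsto_inv_atTop_nhds_zero_nat).sub_const _).abs).const_mul _)
  simp only [sub_self, abs_zero, mul_zero, sum_const_zero] at h1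
  obtain ⟨N, hN1, hN2⟩ := ((h1.eventually (gt_mem_nhds hε)).and (eventually_gt_atTop 0)).exists
  have hN : (0 : ℝ) < N := by positivity
  refine ⟨r / ((m + 1) * N), by positivity, fun z hz => ?_⟩
  obtain ⟨h, rfl⟩ : ∃ h, z = x + h := ⟨z - x, by abel⟩
  rw [dist_eq_norm, add_sub_cancel_left, lt_div_iff₀ (by positivity)] at hz
  have a1 := L1 m F hF l hl x ((N : ℝ) • h) ((N : ℚ)⁻¹)
  have a2 := L1 m F hF l hl x ((N : ℝ) • h) 0
  push_cast at a1 a2
  rw [smul_smul, inv_mul_cancel₀ hN.ne', one_smul] at a1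
  rw [zero_smul, add_zero] at a2
  rw [Real.dist_eq, a1, a2, ← sum_sub_distrib]
  refine ((abs_sum_le_sum_abs _ _).trans (sum_le_sum (fun j hj => ?_))).trans_lt hN1
  rw [← mul_sub, abs_mul]
  refine mul_le_mul_of_nonneg_right (hM _ ?_) (abs_nonneg _)
  rw [norm_smul, norm_smul, Real.norm_natCast, Real.norm_natCast]
  have : (j : ℝ) ≤ m + 1 := by exact_mod_cast (mem_range.1 hj).le
  have := mul_le_mul_of_nonneg_right this (show 0 ≤ (N : ℝ) * ‖h‖ by positivity)
  linarith

end

lemma main (m : ℕ) : ∀ F : E → ℝ,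
    (∀ x h : E, ∃ p : ℝ[X], p.natDegree ≤ m ∧ ∀ t : ℚ, F (x + (t : ℝ) • h) = p.eval (t : ℝ)) →
    (∀ x : ℕ → E, Tendsto x atTop (𝓝 0) → ∃ y M, ∀ᶠ n in atTop, |F (x n + y)| ≤ M) →
    Continuous F := by
  induction m with
  | zero =>
    intro F hF _
    have : F = fun _ => F 0 := by
      funext h
      obtain ⟨p, hp, e⟩ := hF 0 h
      have a1 := e 1
      have a2 := e 0
      rw [eq_C_of_natDegree_le_zero hp] at a1 a2
      simp at a1 a2
      rw [a1, a2]
    rw [this]; exact continuous_const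
  | succ k ih =>
    intro F hF hb
    set m := k + 1 with hm
    let l : ℕ → ℝ[X] := fun j => Lagrange.basis (range (m + 1)) (fun j : ℕ => (j : ℝ)) j
    have hl : ∀ j, l j = Lagrange.basis (range (m + 1)) (fun j : ℕ => (j : ℝ)) j := fun _ => rfl
    let T : E → ℝ := fun h => ∑ j ∈ range (m + 1), F (0 + (j : ℝ) • h) * (l j).coeff m
    have hT : ∀ x h : E, ∃ p : ℝ[X], p.natDegree ≤ m ∧ p.coeff m = T h ∧
        ∀ t : ℚ, T (x + (t : ℝ) • h) = p.eval (t : ℝ) := by
      intro x h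
      choose p hp e using fun j : ℕ => hF ((j : ℝ) • x) ((j : ℝ) • h)
      refine ⟨∑ j ∈ range (m + 1), p j * C ((l j).coeff m), natDegree_sum_le_of_forall_le _ _
        (fun j _ => natDegree_mul_C_le _ _ |>.trans (hp j)), ?_, fun t => ?_⟩
      · have one : ∑ j ∈ range (m + 1), (j : ℝ) ^ m * (l j).coeff m = 1 := by
          have := congrArg (fun q => coeff q m) (interp m (X ^ m) (by simp))
          simp only [coeff_X_pow_self, finsetSum_coeff, coeff_C_mul, eval_pow, eval_X] at this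
          exact this.symm
        rw [finsetSum_coeff, ← mul_one (T h), ← one, mul_sum]
        refine sum_congr rfl (fun j _ => ?_)
        rw [coeff_mul_C, L2 m F l hl _ _ _ (hp j) (e j), L3 m F hF l hl, L4 m F hF l hl]
        ring
      · rw [eval_finsetSum]
        refine sum_congr rfl (fun j _ => ?_)
        rw [eval_mul, eval_C, ← e, zero_add, smul_add, smul_comm (j : ℝ) (t : ℝ) h]
    have hTb : ∃ r > 0, ∃ M, ∀ y, ‖y‖ < r → |T y| ≤ M := by
      by_contra hc
      push Not at hc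
      choose h h1 h2 using fun n : ℕ => hc (1 / ((n : ℝ) + 1)) (by positivity) n
      have h0 : Tendsto (fun n => ‖h n‖) atTop (𝓝 0) :=
        squeeze_zero (fun _ => norm_nonneg _) (fun n => (h1 n).le)
          tendsto_one_div_add_atTop_nhds_zero_nat
      obtain ⟨y, M, hy⟩ := hb (fun i => ((i % (m + 1) : ℕ) : ℝ) • h (i / (m + 1))) (by
        rw [tendsto_zero_iff_norm_tendsto_zero]
        have := (h0.comp (Nat.tendsto_div_const_atTop (Nat.succ_ne_zero m))).const_mul ((m : ℝ) + 1)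
        rw [mul_zero] at this
        refine squeeze_zero (fun _ => norm_nonneg _) (fun i => ?_) this
        rw [norm_smul, Real.norm_natCast]
        refine mul_le_mul_of_nonneg_right ?_ (norm_nonneg _)
        exact_mod_cast (Nat.mod_lt i (Nat.succ_pos m)).le)
      obtain ⟨i0, hi0⟩ := eventually_atTop.1 hy
      obtain ⟨n, hn1, hn2⟩ := ((eventually_ge_atTop i0).and (tendsto_natCast_atTop_atTop.eventually
        (eventually_ge_atTop (∑ j ∈ range (m + 1), M * |(l j).coeff m|)))).exists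
      refine absurd (h2 n) (not_lt.2 (le_trans ?_ hn2))
      simp only [T]
      rw [← L4 m F hF l hl y]
      refine (abs_sum_le_sum_abs _ _).trans (sum_le_sum (fun j hj => ?_))
      rw [abs_mul]
      refine mul_le_mul_of_nonneg_right ?_ (abs_nonneg _)
      have hj' := mem_range.1 hj
      have := hi0 (j + (m + 1) * n) (by nlinarith)
      rwa [Nat.add_mul_mod_self_left, Nat.mod_eq_of_lt hj', Nat.add_mul_div_left _ _ (by omega),
        Nat.div_eq_of_lt hj', zero_add, add_comm] at this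
    have hTc : Continuous T := by
      obtain ⟨r, hr, M, hM⟩ := hTb
      refine continuous_iff_continuousAt.2 (fun x => ?_)
      obtain ⟨N, hN⟩ := exists_nat_gt ((‖x‖ + 1) / r)
      have hN0 : (0 : ℝ) < N := lt_trans (by positivity) hN
      refine L6 m T (fun x h => (hT x h).imp (fun p hp => ⟨hp.1, hp.2.2⟩)) l hl x 1
        ((N : ℝ) ^ m * M) one_pos (fun y hy => ?_)
      have e : T (x + y) = (N : ℝ) ^ m * T ((N : ℝ)⁻¹ • (x + y)) := by
        simp only [T]
        rw [← L3 m F hF l hl, smul_inv_smul₀ hN0.ne']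
      rw [e, abs_mul, abs_of_pos (by positivity)]
      refine mul_le_mul_of_nonneg_left (hM _ ?_) (by positivity)
      rw [norm_smul, norm_inv, Real.norm_natCast, inv_mul_lt_iff₀ hN0]
      rw [div_lt_iff₀ hr] at hN
      linarith [norm_add_le x y]
    have hG := ih (fun x => F x - T x) (fun x h => ?_) (fun x hx => ?_)
    · exact (hG.add hTc).congr (fun x => by simp)
    · obtain ⟨p, hp, e⟩ := hF x h
      obtain ⟨q, hq, c, e'⟩ := hT x h
      refine ⟨p - q, natDegree_le_iff_coeff_eq_zero.2 (fun N hN => ?_), fun t => by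
        rw [eval_sub, e, e']⟩
      rw [coeff_sub]
      rcases (show N = m ∨ m < N by omega) with rfl | h'
      · rw [c, L2 _ F l hl _ _ _ hp e, L4 _ F hF l hl, sub_self]
      · rw [coeff_eq_zero_of_natDegree_lt (hp.trans_lt h'),
          coeff_eq_zero_of_natDegree_lt (hq.trans_lt h'), sub_self]
    · obtain ⟨y, M, hy⟩ := hb x hx
      have h1 : Tendsto (fun n => |T (x n + y)|) atTop (𝓝 |T (0 + y)|) :=
        ((hTc.tendsto _).comp (hx.add_const y)).abs
      refine ⟨y, M + (|T (0 + y)| + 1), ?_⟩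
      filter_upwards [hy, h1.eventually (gt_mem_nhds (lt_add_one _))] with n a b
      exact (abs_sub _ _).trans (by linarith)

theorem result {E : Type*} [NormedAddCommGroup E] [NormedSpace ℝ E] (m : ℕ) (F : E → ℝ)
    (hF : ∀ x₀ h₀ : E, ∃ a : ℕ → ℝ, ∀ t : ℚ,
      F (x₀ + (t : ℝ) • h₀) = ∑ i ∈ range (m + 1), a i * (t : ℝ) ^ i)
    (hd : ¬ Continuous F) :
    ∃ x : ℕ → E, Tendsto x atTop (𝓝 0) ∧
      ∀ y : E, ∀ M : ℝ, ∃ᶠ n in atTop, M < |F (x n + y)| := by
  by_contra hc
  refine hd (main m F (fun x h => ?_) (fun x hx => ?_))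
  · obtain ⟨a, e⟩ := hF x h
    refine ⟨∑ i ∈ range (m + 1), C (a i) * X ^ i, natDegree_sum_le_of_forall_le _ _
      (fun i hi => (natDegree_C_mul_X_pow_le _ _).trans (Nat.lt_succ_iff.1 (mem_range.1 hi))),
      fun t => ?_⟩
    rw [e, eval_finsetSum]
    simp
  · by_contra h
    refine hc ⟨x, hx, fun y M => ?_⟩
    by_contra h'
    exact h ⟨y, M, by simpa using h'⟩

end Pool.Agent.Results.MP_f5651a_an.Q2True
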